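import Pool.Agent.Helper84.OPC.Stmts

set_option autoImplicit false

/-!
MP_ec87e6_co, module EXT: extension of paths to a continuous function
-/

open Finset

namespace OPC

theorem ext_cont (D : ℝ → ℝ × ℝ) (hD : Continuous D) :
    Continuous (fun q : ℝ × ℝ =>
      (max q.1 0 + max q.2 0) • D (max q.2 0 / (max q.1 0 + max q.2 0))) := by
  have ha : Continuous (fun q : ℝ × ℝ => max q.1 0) := continuous_fst.max continuous_const
  have hb : Continuous (fun q : ℝ × ℝ => max q.2 0) := continuous_snd.max continuous_const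
  have hab : Continuous (fun q : ℝ × ℝ => max q.1 0 + max q.2 0) := ha.add hb
  obtain ⟨M, hM⟩ := (isCompact_Icc (a := (0 : ℝ)) (b := 1)).exists_bound_of_continuousOn
    hD.continuousOn
  have hrange : ∀ q : ℝ × ℝ, max q.2 0 / (max q.1 0 + max q.2 0) ∈ Set.Icc (0 : ℝ) 1 := by
    intro q
    have h1 : (0 : ℝ) ≤ max q.1 0 := le_max_right _ _
    have h2 : (0 : ℝ) ≤ max q.2 0 := le_max_right _ _
    exact ⟨by positivity, div_le_one_of_le₀ (by linarith) (by positivity)⟩
  rw [continuous_iff_continuousAt]
  intro q
  by_cases h0 : max q.1 0 + max q.2 0 = 0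
  · have hval : (max q.1 0 + max q.2 0) • D (max q.2 0 / (max q.1 0 + max q.2 0)) = 0 := by
      rw [h0, zero_smul]
    show Filter.Tendsto _ _ (nhds ((max q.1 0 + max q.2 0) •
      D (max q.2 0 / (max q.1 0 + max q.2 0))))
    rw [hval]
    apply squeeze_zero_norm (a := fun q : ℝ × ℝ => (max q.1 0 + max q.2 0) * M)
    · intro q'
      have h1 : (0 : ℝ) ≤ max q'.1 0 := le_max_right _ _
      have h2 : (0 : ℝ) ≤ max q'.2 0 := le_max_right _ _
      rw [norm_smul, Real.norm_of_nonneg (by linarith)]
      exact mul_le_mul_of_nonneg_left (hM _ (hrange q')) (by linarith)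
    · have h1 : Continuous (fun q : ℝ × ℝ => (max q.1 0 + max q.2 0) * M) :=
        hab.mul continuous_const
      have h2 := h1.tendsto q
      rw [h0, zero_mul] at h2
      exact h2
  · apply ContinuousAt.smul hab.continuousAt
    exact ContinuousAt.comp (g := D) hD.continuousAt
      (ContinuousAt.div hb.continuousAt hab.continuousAt h0)

theorem ext_term (D : ℝ → ℝ × ℝ) (h0 : D 0 = 0) (h1 : D 1 = 0) (a b : ℝ) (h : a = 0 ∨ b = 0) :
    (a + b) • D (b / (a + b)) = 0 := by
  rcases h with rfl | rfl
  · by_cases hb : b = 0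
    · rw [hb, zero_add, zero_smul]
    · rw [zero_add, div_self hb, h1, smul_zero]
  · rw [zero_div, h0, smul_zero]

theorem ext_path (n : ℕ) (p : Fin n → ℝ × ℝ) (A : Fin n → Fin n → Set (ℝ × ℝ))
    (h : ∀ i j, i < j → JoinedIn (A i j) (p i) (p j)) (i j : Fin n) :
    ∃ D : ℝ → ℝ × ℝ, Continuous D ∧ D 0 = 0 ∧ D 1 = 0 ∧
      (i < j → ∀ s : ℝ, 0 ≤ s → s ≤ 1 → (1 - s) • p i + s • p j + D s ∈ A i j) ∧
      (¬ i < j → ∀ s, D s = 0) := by
  by_cases hij : i < j
  · obtain ⟨γ, hγ⟩ := h i j hij
    refine ⟨fun s => γ.extend s - ((1 - s) • p i + s • p j), ?_, ?_, ?_, ?_, ?_⟩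
    · apply Continuous.sub
      · exact γ.continuous_extend
      · fun_prop
    · simp
    · simp
    · intro _ s hs0 hs1
      have h1 : (1 - s) • p i + s • p j + (γ.extend s - ((1 - s) • p i + s • p j)) =
          γ ⟨s, hs0, hs1⟩ := by
        rw [γ.extend_apply ⟨hs0, hs1⟩]
        abel
      show (1 - s) • p i + s • p j + (γ.extend s - ((1 - s) • p i + s • p j)) ∈ A i j
      rw [h1]
      exact hγ _
    · intro h1
      exact absurd hij h1
  · exact ⟨fun _ => 0, continuous_const, rfl, rfl, fun h1 => absurd h1 hij, fun _ _ => rfl⟩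

theorem st_EXT : ST_EXT := by
  intro n p A hA
  choose D hDc hD0 hD1 hDA hDn using ext_path n p A hA
  refine ⟨fun x => ∑ k, max (x k) 0 • p k + ∑ k, ∑ l, (max (x k) 0 + max (x l) 0) •
    D k l (max (x l) 0 / (max (x k) 0 + max (x l) 0)), ?_, ?_, ?_⟩
  · apply Continuous.add
    · apply continuous_finsetSum
      intro k _
      exact ((continuous_apply k).max continuous_const).smul continuous_const
    · apply continuous_finsetSum
      intro k _
      apply continuous_finsetSum
      intro l _
      have h1 : Continuous (fun x : Fin n → ℝ => (x k, x l)) :=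
        (continuous_apply k).prodMk (continuous_apply l)
      exact (ext_cont (D k l) (hDc k l)).comp h1
  · intro i
    have h1 : ∀ k, max ((Pi.single i (1 : ℝ) : Fin n → ℝ) k) 0 = if k = i then 1 else 0 := by
      intro k
      by_cases hk : k = i
      · subst hk
        rw [Pi.single_eq_same, if_pos rfl]
        exact max_eq_left zero_le_one
      · rw [Pi.single_eq_of_ne hk, if_neg hk, max_self]
    show ∑ k, max ((Pi.single i (1 : ℝ) : Fin n → ℝ) k) 0 • p k + ∑ k, ∑ l,
      (max ((Pi.single i (1 : ℝ) : Fin n → ℝ) k) 0 +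
        max ((Pi.single i (1 : ℝ) : Fin n → ℝ) l) 0) •
      D k l (max ((Pi.single i (1 : ℝ) : Fin n → ℝ) l) 0 /
        (max ((Pi.single i (1 : ℝ) : Fin n → ℝ) k) 0 +
          max ((Pi.single i (1 : ℝ) : Fin n → ℝ) l) 0)) = p i
    have h2 : ∀ k l, (max ((Pi.single i (1 : ℝ) : Fin n → ℝ) k) 0 +
        max ((Pi.single i (1 : ℝ) : Fin n → ℝ) l) 0) •
      D k l (max ((Pi.single i (1 : ℝ) : Fin n → ℝ) l) 0 /
        (max ((Pi.single i (1 : ℝ) : Fin n → ℝ) k) 0 +
          max ((Pi.single i (1 : ℝ) : Fin n → ℝ) l) 0)) = 0 := by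
      intro k l
      by_cases hkl : k < l
      · apply ext_term _ (hD0 k l) (hD1 k l)
        rw [h1, h1]
        by_cases hk : k = i
        · right
          rw [if_neg]
          rintro rfl
          exact absurd hkl (by rw [hk]; exact lt_irrefl _)
        · left
          rw [if_neg hk]
      · rw [hDn k l hkl, smul_zero]
    simp only [h2, Finset.sum_const_zero, add_zero]
    simp only [h1]
    simp
  · intro i j hij x hx hk
    have hx0 : ∀ k, max (x k) 0 = x k := fun k => max_eq_left (hx.1 k)
    show ∑ k, max (x k) 0 • p k + ∑ k, ∑ l, (max (x k) 0 + max (x l) 0) •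
      D k l (max (x l) 0 / (max (x k) 0 + max (x l) 0)) ∈ A i j
    simp only [hx0]
    have hne : i ≠ j := ne_of_lt hij
    have hs1 : x i + x j = 1 := by
      rw [← hx.2, ← Finset.sum_subset (Finset.subset_univ {i, j})]
      · rw [Finset.sum_pair hne]
      · intro k _ hk'
        rw [Finset.mem_insert, Finset.mem_singleton, not_or] at hk'
        exact hk k hk'.1 hk'.2
    have e1 : ∑ k, x k • p k = x i • p i + x j • p j := by
      rw [← Finset.sum_subset (Finset.subset_univ {i, j})]
      · rw [Finset.sum_pair hne]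
      · intro k _ hk'
        rw [Finset.mem_insert, Finset.mem_singleton, not_or] at hk'
        rw [hk k hk'.1 hk'.2, zero_smul]
    have hz : ∀ k l, ¬ (k = i ∧ l = j) → (x k + x l) • D k l (x l / (x k + x l)) = 0 := by
      intro k l hkl'
      by_cases hkl : k < l
      · apply ext_term _ (hD0 k l) (hD1 k l)
        by_cases hk1 : k = i
        · right
          apply hk
          · rintro rfl
            exact absurd hkl (by rw [hk1]; exact lt_irrefl _)
          · intro h2
            exact hkl' ⟨hk1, h2⟩
        · by_cases hk2 : k = j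
          · right
            apply hk
            · rintro rfl
              exact absurd (hkl.trans hij) (by rw [hk2]; exact lt_irrefl _)
            · rintro rfl
              exact absurd hkl (by rw [hk2]; exact lt_irrefl _)
          · left
            exact hk k hk1 hk2
      · rw [hDn k l hkl, smul_zero]
    have e2 : ∑ k, ∑ l, (x k + x l) • D k l (x l / (x k + x l)) = D i j (x j) := by
      rw [Finset.sum_eq_single i]
      · rw [Finset.sum_eq_single j]
        · rw [hs1, one_smul, div_one]
        · intro l _ hl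
          exact hz i l (fun h => hl h.2)
        · intro h; exact absurd (Finset.mem_univ j) h
      · intro k _ hk'
        exact Finset.sum_eq_zero fun l _ => hz k l (fun h => hk' h.1)
      · intro h; exact absurd (Finset.mem_univ i) h
    rw [e1, e2]
    have h3 : x i = 1 - x j := by linarith
    rw [h3]
    exact hDA i j hij (x j) (hx.1 j) (by have := hx.1 i; linarith)

end OPC
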