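import Pool.Agent.Helper84.OPC.Stmts
import Pool.Agent.Helper36.Sim.A1a
import Pool.Agent.Helper36.Sim.A1c
import Pool.Agent.Helper98.Sim.A1b

set_option autoImplicit false

/-!
MP_ec87e6_co, module RAD: topological Radon theorem from the Borsuk-Ulam theorem
-/

open Finset

namespace OPC

/-- the lift of `z` to the hyperplane with sum `0` -/
def rad_h {N : ℕ} (z : Fin (N + 1) → ℝ) : Fin (N + 2) → ℝ := Fin.cons (-(∑ i, z i)) z

theorem rad_h_neg {N : ℕ} (z : Fin (N + 1) → ℝ) : rad_h (-z) = -rad_h z := by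
  funext i
  refine Fin.cases ?_ (fun j => ?_) i
  · simp [rad_h]
  · simp [rad_h]

theorem rad_h_sum {N : ℕ} (z : Fin (N + 1) → ℝ) : ∑ i, rad_h z i = 0 := by
  rw [Fin.sum_univ_succ]
  simp [rad_h]

theorem rad_h_cont {N : ℕ} (i : Fin (N + 2)) :
    Continuous (fun z : Fin (N + 1) → ℝ => rad_h z i) := by
  refine Fin.cases ?_ (fun j => ?_) i
  · have : (fun z : Fin (N + 1) → ℝ => rad_h z 0) = fun z => -(∑ i, z i) := by
      funext z; simp [rad_h]
    rw [this]
    fun_prop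
  · have : (fun z : Fin (N + 1) → ℝ => rad_h z j.succ) = fun z => z j := by
      funext z; simp [rad_h]
    rw [this]
    exact continuous_apply j

/-- positive part of the lift -/
noncomputable def rad_p {N : ℕ} (z : Fin (N + 1) → ℝ) : Fin (N + 2) → ℝ :=
  fun i => max (rad_h z i) 0

theorem rad_p_cont {N : ℕ} : Continuous (fun z : Fin (N + 1) → ℝ => rad_p z) :=
  continuous_pi fun i => (rad_h_cont i).max continuous_const

/-- its sum -/
noncomputable def rad_s {N : ℕ} (z : Fin (N + 1) → ℝ) : ℝ := ∑ i, rad_p z i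

theorem rad_s_cont {N : ℕ} : Continuous (fun z : Fin (N + 1) → ℝ => rad_s z) :=
  continuous_finsetSum _ fun i _ => (rad_h_cont i).max continuous_const

theorem rad_s_neg {N : ℕ} (z : Fin (N + 1) → ℝ) : rad_s (-z) = rad_s z := by
  have h : rad_s z - rad_s (-z) = ∑ i, rad_h z i := by
    unfold rad_s
    rw [← Finset.sum_sub_distrib]
    apply Finset.sum_congr rfl
    intro i _
    unfold rad_p
    rw [rad_h_neg, Pi.neg_apply]
    rcases le_total 0 (rad_h z i) with h | h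
    · rw [max_eq_left h, max_eq_right (by linarith)]; ring
    · rw [max_eq_right h, max_eq_left (by linarith)]; ring
  rw [rad_h_sum] at h
  linarith

theorem rad_s_ge {N : ℕ} (z : Fin (N + 1) → ℝ) (hz : ∑ i, |z i| = 1) : 1 / 2 ≤ rad_s z := by
  have h : rad_s z + rad_s (-z) = ∑ i, |rad_h z i| := by
    unfold rad_s
    rw [← Finset.sum_add_distrib]
    apply Finset.sum_congr rfl
    intro i _
    unfold rad_p
    rw [rad_h_neg, Pi.neg_apply]
    rcases le_total 0 (rad_h z i) with h | h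
    · rw [max_eq_left h, max_eq_right (by linarith), abs_of_nonneg h]; ring
    · rw [max_eq_right h, max_eq_left (by linarith), abs_of_nonpos h]; ring
  rw [rad_s_neg, Fin.sum_univ_succ] at h
  have h2 : ∑ i : Fin (N + 1), |rad_h z i.succ| = 1 := by
    rw [← hz]
    apply Finset.sum_congr rfl
    intro i _
    simp [rad_h]
  rw [h2] at h
  have h3 := abs_nonneg (rad_h z 0)
  linarith

theorem st_RAD : ST_RAD := by
  intro N f hf
  have hBU : Pool.Agent.Helper98.Sim.BU_stmt :=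
    Pool.Agent.Helper36.Sim.st_A1c Pool.Agent.Helper36.Sim.st_A1a Pool.Agent.Helper98.Sim.st_Sd
  let ρ : (Fin (N + 1) → ℝ) → ℝ := fun z => max (rad_s z) (1 / 4)
  have hρc : Continuous ρ := rad_s_cont.max continuous_const
  have hρ0 : ∀ z, ρ z ≠ 0 := fun z => by
    have : (1 / 4 : ℝ) ≤ ρ z := le_max_right _ _
    intro h0
    rw [h0] at this
    norm_num at this
  have hρn : ∀ z, ρ (-z) = ρ z := fun z => by
    show max (rad_s (-z)) (1 / 4) = max (rad_s z) (1 / 4)
    rw [rad_s_neg]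
  have hA : Continuous (fun z => f ((ρ z)⁻¹ • rad_p z)) :=
    hf.comp ((hρc.inv₀ hρ0).smul rad_p_cont)
  have hB : Continuous (fun z => f ((ρ z)⁻¹ • rad_p (-z))) :=
    hf.comp ((hρc.inv₀ hρ0).smul (rad_p_cont.comp continuous_neg))
  obtain ⟨z, hz, hg⟩ := hBU N (fun z => f ((ρ z)⁻¹ • rad_p z) - f ((ρ z)⁻¹ • rad_p (-z)))
    (hA.sub hB) (fun z => by
      show f ((ρ (-z))⁻¹ • rad_p (-z)) - f ((ρ (-z))⁻¹ • rad_p (- -z)) =
        -(f ((ρ z)⁻¹ • rad_p z) - f ((ρ z)⁻¹ • rad_p (-z)))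
      rw [hρn, neg_neg, neg_sub])
  have hs := rad_s_ge z hz
  have hρs : ρ z = rad_s z := max_eq_left (by linarith)
  have hs0 : 0 < rad_s z := by linarith
  have hsn : rad_s (-z) = rad_s z := rad_s_neg z
  have hsum : ∀ w : Fin (N + 1) → ℝ, 0 < rad_s w →
      (rad_s w)⁻¹ • rad_p w ∈ stdSimplex ℝ (Fin (N + 2)) := by
    intro w hw
    refine ⟨fun i => ?_, ?_⟩
    · show 0 ≤ (rad_s w)⁻¹ * rad_p w i
      exact mul_nonneg (inv_nonneg.2 hw.le) (le_max_right _ _)
    · show ∑ i, (rad_s w)⁻¹ * rad_p w i = 1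
      rw [← Finset.mul_sum]
      exact inv_mul_cancel₀ hw.ne'
  refine ⟨(rad_s z)⁻¹ • rad_p z, (rad_s z)⁻¹ • rad_p (-z), hsum z hs0, ?_, ?_, ?_⟩
  · have := hsum (-z) (by rw [hsn]; exact hs0)
    rwa [hsn] at this
  · intro i
    rcases le_total 0 (rad_h z i) with h | h
    · right
      show (rad_s z)⁻¹ * max (rad_h (-z) i) 0 = 0
      rw [rad_h_neg, Pi.neg_apply, max_eq_right (by linarith), mul_zero]
    · left
      show (rad_s z)⁻¹ * max (rad_h z i) 0 = 0
      rw [max_eq_right h, mul_zero]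
  · have hg' : f ((ρ z)⁻¹ • rad_p z) - f ((ρ z)⁻¹ • rad_p (-z)) = 0 := hg
    rw [hρs] at hg'
    exact sub_eq_zero.1 hg'

end OPC
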